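import Mathlib

/-!
# The Bishop–Phelps theorem (real case), for the unit ball of a Banach space
-/

open Filter Topology Set

namespace Pool.Agent.Lib.MP_6b3dca_an

variable {Y : Type*} [NormedAddCommGroup Y] [NormedSpace ℝ Y]

/-- A maximal element, in the closed unit ball, for the order given by the cone
`ε ‖k‖ ≤ Φ k`. -/
theorem exists_maximal [CompleteSpace Y] (Φ : Y →L[ℝ] ℝ) {ε : ℝ} (hε : 0 < ε) :
    ∃ y : Y, ‖y‖ ≤ 1 ∧ ∀ z : Y, ‖z‖ ≤ 1 → ε * ‖z - y‖ ≤ Φ z - Φ y → z = y := by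
  classical
  -- the set above a point
  let S : Y → Set Y := fun y => {z | ‖z‖ ≤ 1 ∧ ε * ‖z - y‖ ≤ Φ z - Φ y}
  have hbound : ∀ z : Y, ‖z‖ ≤ 1 → Φ z ≤ ‖Φ‖ := fun z hz => by
    calc Φ z ≤ ‖Φ z‖ := le_abs_self _
      _ ≤ ‖Φ‖ * ‖z‖ := Φ.le_opNorm z
      _ ≤ ‖Φ‖ * 1 := by gcongr
      _ = ‖Φ‖ := mul_one _
  have hbdd : ∀ y, BddAbove (Φ '' S y) := by
    intro y
    refine ⟨‖Φ‖, ?_⟩
    rintro _ ⟨z, hz, rfl⟩
    exact hbound z hz.1
  -- one step
  have step : ∀ (n : ℕ) (y : Y), ‖y‖ ≤ 1 → ∃ z, z ∈ S y ∧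
      ∀ z' ∈ S y, Φ z' ≤ Φ z + (1 / 2 : ℝ) ^ n := by
    intro n y hy
    have hne : (Φ '' S y).Nonempty := ⟨Φ y, y, ⟨hy, by simp⟩, rfl⟩
    obtain ⟨_, ⟨z, hz, rfl⟩, hlt⟩ := exists_lt_of_lt_csSup hne
      (show sSup (Φ '' S y) - (1 / 2 : ℝ) ^ n < sSup (Φ '' S y) by
        have : (0 : ℝ) < (1 / 2 : ℝ) ^ n := by positivity
        linarith)
    refine ⟨z, hz, fun z' hz' => ?_⟩
    have := le_csSup (hbdd y) ⟨z', hz', rfl⟩
    linarith
  choose! nxt hnxt1 hnxt2 using step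
  let y : ℕ → Y := fun n => Nat.rec 0 (fun n y => nxt n y) n
  have y0 : y 0 = 0 := rfl
  have ysucc : ∀ n, y (n + 1) = nxt n (y n) := fun n => rfl
  have hy1 : ∀ n, ‖y n‖ ≤ 1 := by
    intro n
    induction n with
    | zero => simp [y0]
    | succ n ih => rw [ysucc]; exact (hnxt1 n _ ih).1
  have hstep : ∀ n, ε * ‖y (n + 1) - y n‖ ≤ Φ (y (n + 1)) - Φ (y n) := by
    intro n
    rw [ysucc]
    exact (hnxt1 n _ (hy1 n)).2
  have hmono : Monotone fun n => Φ (y n) := by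
    apply monotone_nat_of_le_succ
    intro n
    have h1 := hstep n
    have h2 : 0 ≤ ε * ‖y (n + 1) - y n‖ := by positivity
    linarith
  have hdist : ∀ m n, m ≤ n → ε * ‖y n - y m‖ ≤ Φ (y n) - Φ (y m) := by
    intro m n hmn
    induction n, hmn using Nat.le_induction with
    | base => simp
    | succ n hmn ih =>
      have h1 : ‖y (n + 1) - y m‖ ≤ ‖y (n + 1) - y n‖ + ‖y n - y m‖ := by
        have := norm_sub_le_norm_sub_add_norm_sub (y (n+1)) (y n) (y m)
        exact this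
      have h2 := hstep n
      have h3 : ε * ‖y (n + 1) - y m‖ ≤ ε * (‖y (n + 1) - y n‖ + ‖y n - y m‖) := by gcongr
      linarith [mul_add ε ‖y (n + 1) - y n‖ ‖y n - y m‖]
  -- convergence
  have hconv : ∃ l, Tendsto (fun n => Φ (y n)) atTop (𝓝 l) :=
    ⟨_, tendsto_atTop_ciSup hmono ⟨‖Φ‖, by rintro _ ⟨n, rfl⟩; exact hbound _ (hy1 n)⟩⟩
  obtain ⟨l, hl⟩ := hconv
  have hle : ∀ n, Φ (y n) ≤ l := fun n => hmono.ge_of_tendsto hl n
  have hcau : CauchySeq y := by
    rw [Metric.cauchySeq_iff']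
    intro δ hδ
    have hev : ∀ᶠ n in atTop, l - ε * δ < Φ (y n) :=
      hl.eventually_const_lt (by have : 0 < ε * δ := by positivity
                                 linarith)
    obtain ⟨N, hN⟩ := hev.exists
    refine ⟨N, fun n hn => ?_⟩
    rw [dist_eq_norm]
    have h1 := hdist N n hn
    have h2 := hle n
    have h3 : ε * ‖y n - y N‖ < ε * δ := by linarith
    exact lt_of_mul_lt_mul_left h3 hε.le
  obtain ⟨a, ha⟩ := cauchySeq_tendsto_of_complete hcau
  have haΦ : Φ a = l := tendsto_nhds_unique ((Φ.continuous.tendsto a).comp ha) hl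
  have ha1 : ‖a‖ ≤ 1 := le_of_tendsto ha.norm (Eventually.of_forall hy1)
  have haS : ∀ n, ε * ‖a - y n‖ ≤ Φ a - Φ (y n) := by
    intro n
    have h1 : Tendsto (fun k => ε * ‖y k - y n‖) atTop (𝓝 (ε * ‖a - y n‖)) :=
      ((ha.sub_const (y n)).norm).const_mul ε
    have h2 : Tendsto (fun k => Φ (y k) - Φ (y n)) atTop (𝓝 (Φ a - Φ (y n))) :=
      ((Φ.continuous.tendsto a).comp ha).sub_const _
    exact le_of_tendsto_of_tendsto h1 h2 ((eventually_ge_atTop n).mono fun k hk => hdist n k hk)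
  refine ⟨a, ha1, fun z hz hza => ?_⟩
  have hzS : ∀ n, z ∈ S (y n) := by
    intro n
    refine ⟨hz, ?_⟩
    have h1 : ‖z - y n‖ ≤ ‖z - a‖ + ‖a - y n‖ := norm_sub_le_norm_sub_add_norm_sub _ _ _
    have h3 : ε * ‖z - y n‖ ≤ ε * (‖z - a‖ + ‖a - y n‖) := by gcongr
    have := haS n
    linarith [mul_add ε ‖z - a‖ ‖a - y n‖]
  have hzle : ∀ n : ℕ, Φ z ≤ Φ a + (1 / 2 : ℝ) ^ n := by
    intro n
    have h1 := hnxt2 n (y n) (hy1 n) z (hzS n)
    rw [← ysucc] at h1
    have h2 := hle (n + 1)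
    rw [haΦ]
    linarith
  have hlim : Φ z ≤ Φ a := by
    have ht : Tendsto (fun n : ℕ => Φ a + (1 / 2 : ℝ) ^ n) atTop (𝓝 (Φ a + 0)) :=
      (tendsto_pow_atTop_nhds_zero_of_lt_one (by norm_num) (by norm_num)).const_add _
    rw [add_zero] at ht
    exact ge_of_tendsto' ht hzle
  have h0 : ε * ‖z - a‖ ≤ 0 := by linarith
  have h1 : ‖z - a‖ ≤ 0 := by
    by_contra hcon
    push Not at hcon
    have := mul_pos hε hcon
    linarith
  exact sub_eq_zero.mp (norm_le_zero_iff.mp h1)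

/-- **Bishop–Phelps theorem**: norm attaining functionals are dense in the dual. -/
theorem bishop_phelps [CompleteSpace Y] (Φ : Y →L[ℝ] ℝ) {ε : ℝ} (hε : 0 < ε) :
    ∃ Ψ : Y →L[ℝ] ℝ, (∃ y : Y, ‖y‖ ≤ 1 ∧ Ψ y = ‖Ψ‖) ∧ ‖Φ - Ψ‖ ≤ ε := by
  classical
  by_cases hbig : ‖Φ‖ ≤ ε
  · exact ⟨0, ⟨0, by simp, by simp⟩, by simpa using hbig⟩
  push Not at hbig
  obtain ⟨y, hy1, hymax⟩ := exists_maximal Φ hε
  -- a direction in the open cone
  obtain ⟨k₀, hk₀⟩ : ∃ k₀ : Y, ε * ‖k₀‖ < Φ k₀ := by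
    by_contra hcon
    push Not at hcon
    have : ‖Φ‖ ≤ ε := by
      apply Φ.opNorm_le_bound hε.le
      intro k
      rw [Real.norm_eq_abs, abs_le]
      constructor
      · have := hcon (-k)
        rw [map_neg, norm_neg] at this
        linarith
      · exact hcon k
    linarith
  let C : Set Y := {z | ε * ‖z - y‖ < Φ z - Φ y}
  have hCopen : IsOpen C :=
    isOpen_lt (continuous_const.mul (continuous_id.sub continuous_const).norm)
      (Φ.continuous.sub continuous_const)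
  have hCconv : Convex ℝ C := by
    intro a ha b hb s t hs ht hst
    simp only [C, mem_ofPred_eq] at ha hb ⊢
    have e1 : s • a + t • b - y = s • (a - y) + t • (b - y) := by
      have : y = s • y + t • y := by rw [← add_smul, hst, one_smul]
      nth_rewrite 1 [this]
      module
    rw [e1]
    have e2 : Φ (s • a + t • b) - Φ y = s * (Φ a - Φ y) + t * (Φ b - Φ y) := by
      simp only [map_add, map_smul, smul_eq_mul]
      have : Φ y = s * Φ y + t * Φ y := by rw [← add_mul, hst, one_mul]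
      nth_rewrite 1 [this]
      ring
    rw [e2]
    have e3 : ‖s • (a - y) + t • (b - y)‖ ≤ s * ‖a - y‖ + t * ‖b - y‖ := by
      calc _ ≤ ‖s • (a - y)‖ + ‖t • (b - y)‖ := norm_add_le _ _
        _ = _ := by rw [norm_smul, norm_smul, Real.norm_of_nonneg hs, Real.norm_of_nonneg ht]
    have e4 : ε * ‖s • (a - y) + t • (b - y)‖ ≤ s * (ε * ‖a - y‖) + t * (ε * ‖b - y‖) := by
      calc _ ≤ ε * (s * ‖a - y‖ + t * ‖b - y‖) := by gcongr
        _ = _ := by ring
    refine lt_of_le_of_lt e4 ?_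
    rcases hs.eq_or_lt with h0 | h0
    · have ht1 : t = 1 := by rw [← h0, zero_add] at hst; exact hst
      rw [← h0, ht1]; linarith
    · have h5 : s * (ε * ‖a - y‖) < s * (Φ a - Φ y) := by gcongr
      have h6 : t * (ε * ‖b - y‖) ≤ t * (Φ b - Φ y) := by gcongr
      linarith
  have hdisj : Disjoint C (Metric.closedBall (0 : Y) 1) := by
    rw [Set.disjoint_left]
    intro z hz hzb
    rw [mem_closedBall_zero_iff] at hzb
    have hz' : ε * ‖z - y‖ < Φ z - Φ y := hz
    have := hymax z hzb hz'.le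
    rw [this] at hz'
    simp at hz'
  obtain ⟨f, u, hf1, hf2⟩ := geometric_hahn_banach_open hCconv hCopen
    (convex_closedBall (0 : Y) 1) hdisj
  -- `Ψ := -f`
  set Ψ : Y →L[ℝ] ℝ := -f with hΨ
  have hC : ∀ t : ℝ, 0 < t → y + t • k₀ ∈ C := by
    intro t ht
    simp only [C, mem_ofPred_eq, add_sub_cancel_left, map_add, map_smul, smul_eq_mul]
    rw [norm_smul, Real.norm_of_nonneg ht.le]
    have : t * (ε * ‖k₀‖) < t * Φ k₀ := by gcongr
    linarith
  have hball : ∀ b : Y, ‖b‖ ≤ 1 → Ψ b ≤ -u := by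
    intro b hb
    have := hf2 b (by rwa [mem_closedBall_zero_iff])
    simp only [hΨ, _root_.neg_apply]
    linarith
  have hyge : -u ≤ Ψ y := by
    have h1 : Tendsto (fun t : ℝ => Ψ (y + t • k₀)) (𝓝[>] 0) (𝓝 (Ψ (y + (0 : ℝ) • k₀))) := by
      apply Tendsto.mono_left _ nhdsWithin_le_nhds
      exact (Ψ.continuous.comp (continuous_const.add (continuous_id.smul continuous_const))).tendsto 0
    rw [zero_smul, add_zero] at h1
    refine ge_of_tendsto h1 ?_
    filter_upwards [self_mem_nhdsWithin] with t ht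
    have := hf1 _ (hC t ht)
    simp only [hΨ, _root_.neg_apply]
    linarith
  have hyu : Ψ y = -u := le_antisymm (hball y hy1) hyge
  have hnorm : ‖Ψ‖ = Ψ y := by
    apply le_antisymm
    · apply Ψ.opNorm_le_of_unit_norm
      · have := hball 0 (by simp)
        rw [map_zero] at this
        rw [hyu]; exact this
      · intro x hx
        rw [Real.norm_eq_abs, abs_le, hyu]
        constructor
        · have := hball (-x) (by rw [norm_neg]; exact hx.le)
          rw [map_neg] at this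
          linarith
        · exact hball x hx.le
    · calc Ψ y ≤ ‖Ψ y‖ := le_abs_self _
        _ ≤ ‖Ψ‖ * ‖y‖ := Ψ.le_opNorm y
        _ ≤ ‖Ψ‖ * 1 := by gcongr
        _ = ‖Ψ‖ := mul_one _
  -- positivity on the cone
  have hpos : ∀ k : Y, ε * ‖k‖ < Φ k → 0 < Ψ k := by
    intro k hk
    have hmem : y + k ∈ C := by
      simp only [C, mem_ofPred_eq, add_sub_cancel_left, map_add]
      linarith
    have := hf1 _ hmem
    have h2 : -u < Ψ (y + k) := by
      simp only [hΨ, _root_.neg_apply]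
      linarith
    rw [map_add, hyu] at h2
    linarith
  have hker : ∀ k : Y, Ψ k = 0 → |Φ k| ≤ ε * ‖k‖ := by
    intro k hk
    rw [abs_le]
    constructor
    · by_contra hcon
      push Not at hcon
      have := hpos (-k) (by rw [norm_neg, map_neg]; linarith)
      rw [map_neg, hk] at this
      simp at this
    · by_contra hcon
      push Not at hcon
      have := hpos k hcon
      rw [hk] at this
      exact lt_irrefl _ this
  -- extend the restriction of `Φ` to the kernel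
  let p : Subspace ℝ Y := LinearMap.ker (Ψ : Y →ₗ[ℝ] ℝ)
  obtain ⟨G, hG1, hG2⟩ := exists_extension_norm_eq p (Φ.comp p.subtypeL)
  have hGn : ‖G‖ ≤ ε := by
    rw [hG2]
    apply ContinuousLinearMap.opNorm_le_bound _ hε.le
    rintro ⟨k, hk⟩
    have hk' : Ψ k = 0 := hk
    exact hker k hk'
  have hΨk₀ : 0 < Ψ k₀ := hpos k₀ hk₀
  set c : ℝ := (Φ - G) k₀ / Ψ k₀ with hc
  have hcΨ : Φ - G = c • Ψ := by
    ext k
    have hmem : k - (Ψ k / Ψ k₀) • k₀ ∈ p := by
      change Ψ (k - (Ψ k / Ψ k₀) • k₀) = 0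
      rw [map_sub, map_smul, smul_eq_mul, div_mul_cancel₀ _ hΨk₀.ne', sub_self]
    have h1 := hG1 ⟨_, hmem⟩
    have h2 : G (k - (Ψ k / Ψ k₀) • k₀) = Φ (k - (Ψ k / Ψ k₀) • k₀) := h1
    simp only [map_sub, map_smul, smul_eq_mul] at h2
    simp only [ContinuousLinearMap.sub_apply, ContinuousLinearMap.smul_apply, smul_eq_mul, hc]
    field_simp
    field_simp at h2
    linarith
  refine ⟨c • Ψ, ?_, ?_⟩
  · rcases le_total 0 c with h | h
    · refine ⟨y, hy1, ?_⟩
      rw [norm_smul, Real.norm_of_nonneg h, hnorm]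
      rfl
    · refine ⟨-y, by rwa [norm_neg], ?_⟩
      rw [norm_smul, Real.norm_of_nonpos h, hnorm]
      simp
  · rw [← hcΨ]
    simpa using hGn

end Pool.Agent.Lib.MP_6b3dca_an
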