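import Mathlib

/-!
# Goldstine's theorem, finite version and filter version
-/

open Filter Topology Set

namespace Pool.Agent.Lib.MP_6b3dca_an

variable {E : Type*} [NormedAddCommGroup E] [NormedSpace ℝ E]

/-- Goldstine (Helly), finite version. -/
theorem helly (Φ : (E →L[ℝ] ℝ) →L[ℝ] ℝ) (hΦ : ‖Φ‖ ≤ 1) (s : Finset (E →L[ℝ] ℝ)) {ε : ℝ}
    (hε : 0 < ε) : ∃ x : E, ‖x‖ ≤ 1 ∧ ∀ f ∈ s, |f x - Φ f| < ε := by
  classical
  let T : E →L[ℝ] (s → ℝ) := ContinuousLinearMap.pi fun f => (f : E →L[ℝ] ℝ)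
  let C : Set (s → ℝ) := closure (T '' Metric.closedBall (0 : E) 1)
  have hCconv : Convex ℝ C :=
    ((convex_closedBall (0 : E) 1).linear_image (T : E →ₗ[ℝ] (s → ℝ))).closure
  have hCcl : IsClosed C := isClosed_closure
  have key : (fun f : s => Φ (f : E →L[ℝ] ℝ)) ∈ C := by
    by_contra hnot
    obtain ⟨L, u, hL1, hL2⟩ := geometric_hahn_banach_closed_point hCconv hCcl hnot
    let h : E →L[ℝ] ℝ := ∑ f : s, L (Pi.single f 1) • (f : E →L[ℝ] ℝ)
    have hLa : ∀ a : s → ℝ, L a = ∑ f : s, L (Pi.single f 1) * a f := by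
      intro a
      have ha : a = ∑ f : s, a f • (Pi.single f (1 : ℝ) : s → ℝ) := by
        ext i
        simp [Finset.sum_apply, Pi.single_apply]
      nth_rewrite 1 [ha]
      rw [map_sum]
      refine Finset.sum_congr rfl fun f _ => ?_
      rw [map_smul, smul_eq_mul, mul_comm]
    have hh : ∀ x, h x = L (T x) := by
      intro x
      rw [hLa]
      simp [h, T, ContinuousLinearMap.sum_apply]
    have hhΦ : Φ h = L fun f : s => Φ (f : E →L[ℝ] ℝ) := by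
      rw [hLa]
      simp [h, map_sum]
    have hu : ∀ x : E, ‖x‖ ≤ 1 → h x < u := by
      intro x hx
      rw [hh]
      exact hL1 _ (subset_closure ⟨x, by simpa using hx, rfl⟩)
    have hu0 : 0 ≤ u := by
      have := hu 0 (by simp)
      rw [map_zero] at this
      exact this.le
    have hnorm : ‖h‖ ≤ u := by
      apply h.opNorm_le_of_unit_norm hu0
      intro x hx
      rw [Real.norm_eq_abs, abs_le]
      constructor
      · have := hu (-x) (by rw [norm_neg]; exact hx.le)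
        rw [map_neg] at this
        linarith
      · exact (hu x hx.le).le
    have h1 : Φ h ≤ ‖h‖ := by
      calc Φ h ≤ ‖Φ h‖ := le_abs_self _
        _ ≤ ‖Φ‖ * ‖h‖ := Φ.le_opNorm h
        _ ≤ 1 * ‖h‖ := by gcongr
        _ = ‖h‖ := one_mul _
    rw [← hhΦ] at hL2
    linarith
  obtain ⟨_, ⟨x, hx, rfl⟩, hdist⟩ := Metric.mem_closure_iff.mp key ε hε
  refine ⟨x, by simpa using hx, fun f hf => ?_⟩
  have h1 := (dist_pi_lt_iff hε).mp hdist ⟨f, hf⟩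
  rw [Real.dist_eq] at h1
  rw [abs_sub_comm]
  exact h1

/-- Goldstine, filter version. -/
theorem goldstine (Φ : (E →L[ℝ] ℝ) →L[ℝ] ℝ) (hΦ : ‖Φ‖ ≤ 1) :
    ∃ F : Filter E, F.NeBot ∧ (∀ᶠ x in F, ‖x‖ ≤ 1) ∧
      ∀ f : E →L[ℝ] ℝ, Tendsto (fun x => f x) F (𝓝 (Φ f)) := by
  classical
  let A : Finset (E →L[ℝ] ℝ) × {ε : ℝ // 0 < ε} → Set E := fun p =>
    {x | ‖x‖ ≤ 1 ∧ ∀ f ∈ p.1, |f x - Φ f| < p.2}
  have hA : ∀ p, (A p).Nonempty := fun p => helly Φ hΦ p.1 p.2.2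
  have hdir : Directed (· ≥ ·) fun p => 𝓟 (A p) := by
    rintro ⟨s, ε⟩ ⟨t, δ⟩
    refine ⟨⟨s ∪ t, ⟨min ε δ, lt_min ε.2 δ.2⟩⟩, ?_, ?_⟩
    · simp only [ge_iff_le, principal_mono]
      rintro x ⟨hx1, hx2⟩
      exact ⟨hx1, fun f hf => (hx2 f (Finset.mem_union_left _ hf)).trans_le (min_le_left _ _)⟩
    · simp only [ge_iff_le, principal_mono]
      rintro x ⟨hx1, hx2⟩
      exact ⟨hx1, fun f hf => (hx2 f (Finset.mem_union_right _ hf)).trans_le (min_le_right _ _)⟩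
  refine ⟨⨅ p, 𝓟 (A p), ?_, ?_, ?_⟩
  · haveI : Nonempty (Finset (E →L[ℝ] ℝ) × {ε : ℝ // 0 < ε}) := ⟨⟨∅, ⟨1, one_pos⟩⟩⟩
    exact iInf_neBot_of_directed hdir fun p => principal_neBot_iff.mpr (hA p)
  · have : A ⟨∅, ⟨1, one_pos⟩⟩ ∈ ⨅ p, 𝓟 (A p) :=
      mem_iInf_of_mem _ (mem_principal_self _)
    exact mem_of_superset this fun x hx => hx.1
  · intro f
    rw [Metric.tendsto_nhds]
    intro ε hε
    have : A ⟨{f}, ⟨ε, hε⟩⟩ ∈ ⨅ p, 𝓟 (A p) :=
      mem_iInf_of_mem _ (mem_principal_self _)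
    refine mem_of_superset this fun x hx => ?_
    have := hx.2 f (by simp)
    simpa [Real.dist_eq] using this

end Pool.Agent.Lib.MP_6b3dca_an
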