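import Mathlib

/-!
# James' block argument

For a decreasing sequence of nonempty convex subsets of the unit ball of a Banach space `E` which
stays (in a suitable sense) at distance `θ` from itself at infinity, we construct a sequence `y n`
and `u : E` such that for every weak* cluster point `w ∈ E**` of `y` (along an ultrafilter) the
functional `u - w` on `E*` does not attain its norm.
-/

open Filter Topology Set

namespace Pool.Agent.Lib.MP_6b3dca_an

variable {E : Type*} [NormedAddCommGroup E] [NormedSpace ℝ E]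

theorem norm_comb_le {V : Type*} [NormedAddCommGroup V] [NormedSpace ℝ V] (a b : V) {s t : ℝ}
    (hs : 0 ≤ s) (ht : 0 ≤ t) : ‖s • a + t • b‖ ≤ s * ‖a‖ + t * ‖b‖ := by
  refine (norm_add_le _ _).trans ?_
  rw [norm_smul, norm_smul, Real.norm_of_nonneg hs, Real.norm_of_nonneg ht]

/-- Decreasing sequences of nonempty convex subsets of the unit ball. -/
structure Fam (E : Type*) [NormedAddCommGroup E] [NormedSpace ℝ E] where
  K : ℕ → Set E
  conv : ∀ n, Convex ℝ (K n)
  ne : ∀ n, (K n).Nonempty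
  anti : ∀ n, K (n + 1) ⊆ K n
  ball : ∀ n, ∀ x ∈ K n, ‖x‖ ≤ 1

theorem Fam.mono (F : Fam E) {m n : ℕ} (h : m ≤ n) : F.K n ⊆ F.K m := by
  induction n, h using Nat.le_induction with
  | base => exact subset_rfl
  | succ n _ ih => exact (F.anti n).trans ih

/-- `F'` is finer than `F` (with a shift). -/
def Ext (F' F : Fam E) : Prop := ∀ n, F'.K n ⊆ F.K (n + 1)

theorem Ext.trans {F G H : Fam E} (h1 : Ext F G) (h2 : Ext G H) : Ext F H := fun n =>
  ((h1 n).trans (G.anti n)).trans (h2 n)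

/-- `limsup f (x - u) ≤ c` along `F`, for all `f` in the unit ball. -/
def Q (u : E) (F : Fam E) (c : ℝ) : Prop :=
  ∀ f : E →L[ℝ] ℝ, ‖f‖ ≤ 1 → ∀ ε > 0, ∃ m, ∀ x ∈ F.K m, f (x - u) ≤ c + ε

theorem Q.nonneg {u : E} {F : Fam E} {c : ℝ} (h : Q u F c) : 0 ≤ c := by
  by_contra hc
  push Not at hc
  obtain ⟨m, hm⟩ := h 0 (by simp) (-c / 2) (by linarith)
  obtain ⟨x, hx⟩ := F.ne m
  have := hm x hx
  simp at this
  linarith

/-- The set of admissible bounds. -/
def Adm (P : E) (B : ℝ) (F : Fam E) : Set ℝ :=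
  {c | ∃ y ∈ F.K 0, ∃ F' : Fam E, Ext F' F ∧ Q (P + B • y) F' c}

theorem Adm_bdd (P : E) (B : ℝ) (F : Fam E) : BddBelow (Adm P B F) := by
  refine ⟨0, ?_⟩
  rintro c ⟨y, _, F', _, hQ⟩
  exact hQ.nonneg

/-- The shifted family. -/
def Fam.shift (F : Fam E) : Fam E where
  K := fun n => F.K (n + 1)
  conv := fun _ => F.conv _
  ne := fun _ => F.ne _
  anti := fun _ => F.anti _
  ball := fun _ => F.ball _

theorem Adm_nonempty (P : E) (B : ℝ) (F : Fam E) : (Adm P B F).Nonempty := by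
  obtain ⟨y, hy⟩ := F.ne 0
  refine ⟨1 + ‖P + B • y‖, y, hy, F.shift, fun n => subset_rfl, ?_⟩
  intro f hf ε hε
  refine ⟨0, fun x hx => ?_⟩
  have hx1 : ‖x‖ ≤ 1 := F.ball _ x hx
  calc f (x - (P + B • y)) ≤ ‖f (x - (P + B • y))‖ := le_abs_self _
    _ ≤ ‖f‖ * ‖x - (P + B • y)‖ := f.le_opNorm _
    _ ≤ 1 * (‖x‖ + ‖P + B • y‖) := by
        gcongr
        exact norm_sub_le _ _
    _ ≤ 1 + ‖P + B • y‖ + ε := by linarith

/-- The optimal bound. -/
noncomputable def opt (P : E) (B : ℝ) (F : Fam E) : ℝ := sInf (Adm P B F)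

/-- One step of the construction. -/
theorem step (F : Fam E) (P : E) (B : ℝ) {e : ℝ} (he : 0 < e) :
    ∃ (y : E) (F' : Fam E), y ∈ F.K 0 ∧ Ext F' F ∧
      Q (P + B • y) F' (opt P B F + e) ∧
      ∃ f : E →L[ℝ] ℝ, ‖f‖ ≤ 1 ∧ ∀ x ∈ F'.K 0, opt P B F - e ≤ f (x - (P + B • y)) := by
  obtain ⟨c, ⟨y, hy, G, hG, hQ⟩, hc⟩ := exists_lt_of_csInf_lt (Adm_nonempty P B F)
    (show sInf (Adm P B F) < opt P B F + e by unfold opt; linarith)
  have hnot : ¬ Q (P + B • y) G (opt P B F - e) := by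
    intro hQ'
    have : opt P B F ≤ opt P B F - e :=
      csInf_le (Adm_bdd P B F) ⟨y, hy, G, hG, hQ'⟩
    linarith
  unfold Q at hnot
  push Not at hnot
  obtain ⟨f, hf, ε, hε, hm⟩ := hnot
  refine ⟨y, ⟨fun n => G.K n ∩ {x | opt P B F - e < f (x - (P + B • y))}, ?_, ?_, ?_, ?_⟩,
    hy, ?_, ?_, f, hf, ?_⟩
  · intro n
    refine (G.conv n).inter ?_
    have : {x | opt P B F - e < f (x - (P + B • y))} =
        {x | opt P B F - e + f (P + B • y) < f x} := by
      ext x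
      simp only [mem_ofPred_eq, map_sub]
      constructor <;> intro h <;> linarith
    rw [this]
    exact convex_halfSpace_gt (f : E →ₗ[ℝ] ℝ).isLinear _
  · intro n
    obtain ⟨x, hx, hfx⟩ := hm n
    exact ⟨x, hx, by simp only [mem_ofPred_eq]; linarith⟩
  · intro n x hx
    exact ⟨G.anti n hx.1, hx.2⟩
  · intro n x hx
    exact G.ball n x hx.1
  · intro n x hx
    exact hG n hx.1
  · intro h hh ε' hε'
    obtain ⟨m, hm'⟩ := hQ h hh ε' hε'
    refine ⟨m, fun x hx => ?_⟩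
    have := hm' x hx.1
    linarith
  · intro x hx
    have h2 : opt P B F - e < f (x - (P + B • y)) := hx.2
    exact h2.le

/-- Monotonicity of the optimal bounds. -/
theorem opt_mono (F F' : Fam E) (P : E) {B τ : ℝ} (hτ0 : 0 ≤ τ) (hτ1 : τ ≤ 1)
    {y : E} (hy : y ∈ F.K 0) (hF : Ext F' F) :
    opt P B F ≤ opt (P + ((1 - τ) * B) • y) (τ * B) F' := by
  apply csInf_le_csInf (Adm_bdd _ _ _) (Adm_nonempty _ _ _)
  rintro c ⟨z, hz, G, hG, hQ⟩
  refine ⟨(1 - τ) • y + τ • z, ?_, G, hG.trans hF, ?_⟩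
  · exact F.conv 0 hy (F.anti 0 (hF 0 hz)) (by linarith) hτ0 (by ring)
  · have : P + B • ((1 - τ) • y + τ • z) = P + ((1 - τ) * B) • y + (τ * B) • z := by
      module
    rw [this]
    exact hQ

/-- Weak* cluster points of a family. -/
def Lim (F : Fam E) : Set (StrongDual ℝ (StrongDual ℝ E)) :=
  {w | ∀ (f : E →L[ℝ] ℝ) (c : ℝ), (∃ m, ∀ x ∈ F.K m, f x ≤ c) → w f ≤ c}

theorem norm_le_of_Q {F : Fam E} {w : StrongDual ℝ (StrongDual ℝ E)} (hw : w ∈ Lim F) {u : E} {c : ℝ}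
    (hQ : Q u F c) : ‖NormedSpace.inclusionInDoubleDual ℝ E u - w‖ ≤ c := by
  have key : ∀ f : E →L[ℝ] ℝ, ‖f‖ ≤ 1 → w f - f u ≤ c := by
    intro f hf
    apply le_of_forall_pos_le_add
    intro ε hε
    obtain ⟨m, hm⟩ := hQ f hf ε hε
    have := hw f (c + ε + f u) ⟨m, fun x hx => by
      have := hm x hx
      rw [map_sub] at this
      linarith⟩
    linarith
  apply ContinuousLinearMap.opNorm_le_of_unit_norm hQ.nonneg
  intro f hf
  rw [Real.norm_eq_abs, abs_le]
  have h1 := key f hf.le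
  have h2 := key (-f) (by rw [norm_neg]; exact hf.le)
  rw [map_neg] at h2
  have h3 : (NormedSpace.inclusionInDoubleDual ℝ E u - w) f = f u - w f := by
    simp [NormedSpace.dual_def]
  rw [h3]
  have h4 : (-f) u = - f u := by simp
  rw [h4] at h2
  constructor <;> linarith

theorem le_norm_of_le {F : Fam E} {w : StrongDual ℝ (StrongDual ℝ E)} (hw : w ∈ Lim F) {u : E} {c : ℝ}
    {f : E →L[ℝ] ℝ} (hf : ‖f‖ ≤ 1) (h : ∀ x ∈ F.K 0, c ≤ f (x - u)) :
    c ≤ ‖NormedSpace.inclusionInDoubleDual ℝ E u - w‖ := by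
  have h1 : w (-f) ≤ -(c + f u) := hw (-f) _ ⟨0, fun x hx => by
    have := h x hx
    rw [map_sub] at this
    have h4 : (-f) x = - f x := by simp
    rw [h4]
    linarith⟩
  rw [map_neg] at h1
  have h3 : (NormedSpace.inclusionInDoubleDual ℝ E u - w) f = f u - w f := by
    simp [NormedSpace.dual_def]
  have h5 : ‖(NormedSpace.inclusionInDoubleDual ℝ E u - w) f‖ ≤
      ‖NormedSpace.inclusionInDoubleDual ℝ E u - w‖ * 1 :=
    (ContinuousLinearMap.le_opNorm _ _).trans (by gcongr)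
  rw [h3, mul_one, Real.norm_eq_abs] at h5
  have h6 := neg_abs_le (f u - w f)
  linarith

/-- **James' block lemma.** -/
theorem james_block [CompleteSpace E] (F₀ : Fam E) {θ : ℝ} (hθ0 : 0 < θ) (hθ1 : θ ≤ 1)
    (hbase : ∀ y ∈ F₀.K 0, ∀ F' : Fam E, Ext F' F₀ → ∀ c, Q y F' c → θ ≤ c) :
    ∃ (y : ℕ → E) (u : E), (∀ k, y k ∈ F₀.K k) ∧
      ∀ w : StrongDual ℝ (StrongDual ℝ E), ‖w‖ ≤ 1 →
        (∀ f : E →L[ℝ] ℝ, Tendsto (fun n => f (y n)) (hyperfilter ℕ) (𝓝 (w f))) →
        ¬ ∃ f : E →L[ℝ] ℝ, ‖f‖ ≤ 1 ∧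
          (NormedSpace.inclusionInDoubleDual ℝ E u - w) f =
            ‖NormedSpace.inclusionInDoubleDual ℝ E u - w‖ := by
  classical
  set ι := NormedSpace.inclusionInDoubleDual ℝ E with hι
  -- parameters
  set τ : ℝ := θ / 8 with hτ
  have hτ0 : 0 < τ := by positivity
  have hτ1 : τ < 1 := by rw [hτ]; linarith
  let e : ℕ → ℝ := fun n => θ * τ ^ (n + 1) * (1 / 2) ^ (n + 2)
  have he : ∀ n, 0 < e n := fun n => by positivity
  -- the recursion
  have hstep := fun (n : ℕ) (s : E × Fam E) => step s.2 s.1 (τ ^ n) (he n)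
  choose Y G hY using hstep
  let St : ℕ → E × Fam E := fun n => Nat.rec (0, F₀)
    (fun n s => (s.1 + ((1 - τ) * τ ^ n) • Y n s, G n s)) n
  let P : ℕ → E := fun n => (St n).1
  let F : ℕ → Fam E := fun n => (St n).2
  let y : ℕ → E := fun n => Y n (St n)
  have hP0 : P 0 = 0 := rfl
  have hF0 : F 0 = F₀ := rfl
  have hPs : ∀ n, P (n + 1) = P n + ((1 - τ) * τ ^ n) • y n := fun n => rfl
  have hFs : ∀ n, F (n + 1) = G n (St n) := fun n => rfl
  let a : ℕ → ℝ := fun n => opt (P n) (τ ^ n) (F n)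
  let U : ℕ → E := fun n => P n + τ ^ n • y n
  have h1 : ∀ n, y n ∈ (F n).K 0 := fun n => (hY n (St n)).1
  have h2 : ∀ n, Ext (F (n + 1)) (F n) := fun n => (hY n (St n)).2.1
  have h3 : ∀ n, Q (U n) (F (n + 1)) (a n + e n) := fun n => (hY n (St n)).2.2.1
  have h4 : ∀ n, ∃ f : E →L[ℝ] ℝ, ‖f‖ ≤ 1 ∧ ∀ x ∈ (F (n + 1)).K 0, a n - e n ≤ f (x - U n) :=
    fun n => (hY n (St n)).2.2.2
  -- nesting
  have hnest : ∀ n k m, (F (n + k)).K m ⊆ (F n).K (m + k) := by
    intro n k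
    induction k with
    | zero => intro m; exact subset_rfl
    | succ k ih =>
      intro m
      have e1 : n + (k + 1) = n + k + 1 := by ring
      rw [e1]
      have e2 : m + (k + 1) = (m + 1) + k := by ring
      rw [e2]
      exact (h2 (n + k) m).trans (ih (m + 1))
  have hyF : ∀ n k, y (n + k) ∈ (F n).K k := by
    intro n k
    have := hnest n k 0 (h1 (n + k))
    rwa [zero_add] at this
  have hyball : ∀ n, ‖y n‖ ≤ 1 := fun n => (F n).ball 0 _ (h1 n)
  -- the sequence `P n` converges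
  have hPdist : ∀ n, dist (P n) (P (n + 1)) ≤ (1 - τ) * τ ^ n := by
    intro n
    rw [dist_comm, dist_eq_norm, hPs, add_sub_cancel_left, norm_smul, Real.norm_of_nonneg
      (by have : 0 ≤ 1 - τ := by linarith
          positivity)]
    calc (1 - τ) * τ ^ n * ‖y n‖ ≤ (1 - τ) * τ ^ n * 1 := by
          have : 0 ≤ 1 - τ := by linarith
          gcongr
          exact hyball n
      _ = _ := mul_one _
  have hcau : CauchySeq P := cauchySeq_of_le_geometric τ (1 - τ) hτ1 hPdist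
  obtain ⟨u, hu⟩ := cauchySeq_tendsto_of_complete hcau
  have hPu : ∀ n, ‖u - P n‖ ≤ τ ^ n := by
    intro n
    have := dist_le_of_le_geometric_of_tendsto τ (1 - τ) hτ1 hPdist hu n
    rw [dist_comm, dist_eq_norm] at this
    have h1τ : (1 - τ) ≠ 0 := by linarith
    rwa [mul_div_assoc, mul_div_cancel₀ _ h1τ] at this
  -- monotonicity of `a`
  have hamono : Monotone a := by
    apply monotone_nat_of_le_succ
    intro n
    have := opt_mono (F n) (F (n + 1)) (P n) (B := τ ^ n) hτ0.le hτ1.le (h1 n) (h2 n)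
    change opt (P n) (τ ^ n) (F n) ≤ opt (P (n + 1)) (τ ^ (n + 1)) (F (n + 1))
    rw [hPs, pow_succ' τ n]
    exact this
  have ha0 : θ ≤ a 0 := by
    change θ ≤ opt (P 0) (τ ^ 0) (F 0)
    rw [hP0, hF0, pow_zero]
    apply le_csInf (Adm_nonempty _ _ _)
    rintro c ⟨z, hz, F', hF', hQ⟩
    rw [zero_add, one_smul] at hQ
    exact hbase z hz F' hF' c hQ
  refine ⟨y, u, fun k => by simpa [hF0] using hyF 0 k, ?_⟩
  intro w hw hlim
  rintro ⟨f, hf, hattain⟩
  -- `w` is a cluster point of all the families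
  have hwL : ∀ n, w ∈ Lim (F n) := by
    intro n h c ⟨m, hm⟩
    refine le_of_tendsto (hlim h) ?_
    have : ∀ᶠ k in atTop, h (y k) ≤ c := by
      filter_upwards [eventually_ge_atTop (n + m)] with k hk
      obtain ⟨j, rfl⟩ := Nat.exists_eq_add_of_le hk
      apply hm
      have := hyF n (m + j)
      rw [← add_assoc] at this
      exact (F n).mono (Nat.le_add_right m j) this
    exact this.filter_mono Nat.hyperfilter_le_atTop
  set A : ℝ := ‖ι u - w‖ with hA
  have hup : ∀ n, ‖ι (U n) - w‖ ≤ a n + e n := fun n => norm_le_of_Q (hwL (n + 1)) (h3 n)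
  have hlo : ∀ n, a n - e n ≤ ‖ι (U n) - w‖ := fun n => by
    obtain ⟨h, hh, hx⟩ := h4 n
    exact le_norm_of_le (hwL (n + 1)) hh hx
  have hιn : ∀ x : E, ‖ι x‖ ≤ ‖x‖ := fun x => NormedSpace.double_dual_bound ℝ E x
  have haA : ∀ n, a n ≤ A := by
    intro n
    have hm : ∀ m, n ≤ m → a n ≤ A + (2 * τ ^ m + e m) := by
      intro m hnm
      have e1 := hamono hnm
      have e2 := hlo m
      have e3 : ‖ι (U m) - w‖ ≤ ‖ι u - w‖ + ‖ι (U m - u)‖ := by
        have : ι (U m) - w = (ι u - w) + ι (U m - u) := by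
          rw [map_sub]; abel
        rw [this]
        exact norm_add_le (ι u - w) (ι (U m - u))
      have e4 : ‖ι (U m - u)‖ ≤ 2 * τ ^ m := by
        refine (hιn _).trans ?_
        have : U m - u = τ ^ m • y m - (u - P m) := by
          simp only [U]; abel
        rw [this]
        refine (norm_sub_le _ _).trans ?_
        have e5 : ‖τ ^ m • y m‖ ≤ τ ^ m := by
          rw [norm_smul, Real.norm_of_nonneg (by positivity)]
          calc τ ^ m * ‖y m‖ ≤ τ ^ m * 1 := by gcongr; exact hyball m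
            _ = _ := mul_one _
        linarith [hPu m]
      linarith
    have hto : Tendsto (fun m => A + (2 * τ ^ m + e m)) atTop (𝓝 (A + (2 * 0 + 0))) := by
      have t1 : Tendsto (fun m : ℕ => τ ^ m) atTop (𝓝 0) :=
        tendsto_pow_atTop_nhds_zero_of_lt_one hτ0.le hτ1
      have t2 : Tendsto e atTop (𝓝 0) := by
        have t3 : Tendsto (fun m : ℕ => θ * τ ^ (m + 1) * (1 / 2 : ℝ) ^ (m + 2)) atTop
            (𝓝 (θ * 0 * 0)) := by
          apply Tendsto.mul
          · exact ((tendsto_add_atTop_iff_nat 1).mpr t1).const_mul θ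
          · exact (tendsto_add_atTop_iff_nat 2).mpr
              (tendsto_pow_atTop_nhds_zero_of_lt_one (by norm_num) (by norm_num))
        simp only [mul_zero] at t3
        exact t3
      exact ((t1.const_mul 2).add t2).const_add A
    simp only [mul_zero, add_zero] at hto
    exact ge_of_tendsto hto ((eventually_ge_atTop n).mono hm)
  have hθA : θ ≤ A := ha0.trans (haA 0)
  -- the partial sums
  let p : ℕ → (StrongDual ℝ (StrongDual ℝ E)) := fun n => ι (P n) - (1 - τ ^ n) • w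
  have hp : ∀ n, ‖p n‖ ≤ A - θ * τ ^ n * (1 / 2 + (1 / 2) ^ (n + 1)) := by
    intro n
    induction n with
    | zero =>
      have : p 0 = 0 := by simp [p, hP0]
      rw [this, norm_zero (E := StrongDual ℝ (StrongDual ℝ E))]
      norm_num
      exact hθA
    | succ n ih =>
      have hrec : p (n + 1) = (1 - τ) • (ι (U n) - w) + τ • p n := by
        simp only [p, U, hPs, map_add, map_smul, pow_succ]
        module
      rw [hrec]
      have e1 : ‖(1 - τ) • (ι (U n) - w) + τ • p n‖ ≤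
          (1 - τ) * ‖ι (U n) - w‖ + τ * ‖p n‖ :=
        norm_comb_le (ι (U n) - w) (p n) (by linarith) hτ0.le
      have e2 : (1 - τ) * ‖ι (U n) - w‖ ≤ (1 - τ) * (A + e n) := by
        have : 0 ≤ 1 - τ := by linarith
        gcongr
        exact (hup n).trans (by linarith [haA n])
      have e3 : τ * ‖p n‖ ≤ τ * (A - θ * τ ^ n * (1 / 2 + (1 / 2) ^ (n + 1))) := by gcongr
      have e4 : (1 - τ) * e n ≤ e n := by
        have := he n
        nlinarith
      have e5 : e n = θ * τ ^ (n + 1) * (1 / 2) ^ (n + 2) := rfl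
      calc _ ≤ (1 - τ) * (A + e n) + τ * (A - θ * τ ^ n * (1 / 2 + (1 / 2) ^ (n + 1))) := by
            linarith
        _ = A + (1 - τ) * e n - θ * τ ^ (n + 1) * (1 / 2 + (1 / 2) ^ (n + 1)) := by
            rw [pow_succ τ n]; ring
        _ ≤ A + θ * τ ^ (n + 1) * (1 / 2) ^ (n + 2) -
              θ * τ ^ (n + 1) * (1 / 2 + (1 / 2) ^ (n + 1)) := by linarith
        _ = A - θ * τ ^ (n + 1) * (1 / 2 + (1 / 2) ^ (n + 1 + 1)) := by
            rw [pow_succ (1 / 2 : ℝ) (n + 1)]; ring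
  have hp' : ∀ n, ‖p n‖ ≤ A - θ * τ ^ n / 2 := by
    intro n
    refine (hp n).trans ?_
    have : 0 ≤ θ * τ ^ n * (1 / 2) ^ (n + 1) := by positivity
    linarith [mul_add (θ * τ ^ n) (1 / 2) ((1 / 2) ^ (n + 1))]
  -- every term is large at `f`
  have hterm : ∀ n, w f + θ / 4 ≤ f (y n) := by
    intro n
    have e1 : p n f ≤ A - θ * τ ^ n / 2 := by
      calc p n f ≤ ‖p n f‖ := le_abs_self _
        _ ≤ ‖p n‖ * ‖f‖ := (p n).le_opNorm f
        _ ≤ ‖p n‖ * 1 := by gcongr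
        _ ≤ _ := by rw [mul_one]; exact hp' n
    have e2 : p n f = f (P n) - (1 - τ ^ n) * w f := by
      simp [p, hι, NormedSpace.dual_def]
    have e3 : f u - w f = A := by
      rw [← hattain]
      simp [hι, NormedSpace.dual_def]
    have e4 : f u - f (P (n + 1)) ≤ τ ^ (n + 1) := by
      rw [← map_sub]
      calc f (u - P (n + 1)) ≤ ‖f (u - P (n + 1))‖ := le_abs_self _
        _ ≤ ‖f‖ * ‖u - P (n + 1)‖ := f.le_opNorm _
        _ ≤ 1 * ‖u - P (n + 1)‖ := by gcongr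
        _ ≤ _ := by rw [one_mul]; exact hPu (n + 1)
    have e5 : f (P (n + 1)) = f (P n) + (1 - τ) * τ ^ n * f (y n) := by
      rw [hPs, map_add, map_smul, smul_eq_mul]
    have e6 : -(w f) ≤ 1 := by
      calc -(w f) ≤ ‖w f‖ := neg_le_abs _
        _ ≤ ‖w‖ * ‖f‖ := w.le_opNorm f
        _ ≤ 1 * 1 := by gcongr
        _ = 1 := mul_one _
    have hτn : 0 < τ ^ n := by positivity
    have e7 : τ ^ (n + 1) = τ * τ ^ n := pow_succ' τ n
    -- `(1 - τ) τ ^ n (f (y n) - w f) ≥ θ τ ^ n / 2 - 2 τ ^ (n + 1)`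
    have e8 : τ ^ n * (θ / 4) ≤ τ ^ n * ((1 - τ) * (f (y n) - w f)) := by
      have e9 : τ ^ (n + 1) * (-(w f)) ≤ τ ^ (n + 1) * 1 := by gcongr
      have e10 : θ * τ ^ n / 2 ≤ A - p n f := by linarith
      rw [e2, ← e3] at e10
      rw [e7] at e4 e9
      have e11 : τ * τ ^ n = θ * τ ^ n / 8 := by rw [hτ]; ring
      nlinarith
    have e12 : θ / 4 ≤ (1 - τ) * (f (y n) - w f) := le_of_mul_le_mul_left e8 hτn
    have e13 : 0 < f (y n) - w f := by
      by_contra hcon
      push Not at hcon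
      have : (1 - τ) * (f (y n) - w f) ≤ 0 := mul_nonpos_of_nonneg_of_nonpos (by linarith) hcon
      linarith
    nlinarith
  have : w f + θ / 4 ≤ w f := ge_of_tendsto' (hlim f) hterm
  linarith

end Pool.Agent.Lib.MP_6b3dca_an
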