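import Pool.Agent.Lib.MP_6b3dca_an.BP
import Pool.Agent.Lib.MP_6b3dca_an.Gold
import Pool.Agent.Lib.MP_6b3dca_an.James

/-!
# If the norm attaining functionals on a dual space form a linear space, the space is reflexive
-/

open Filter Topology Set

namespace Pool.Agent.Lib.MP_6b3dca_an

variable {X : Type*} [NormedAddCommGroup X] [NormedSpace ℝ X]

/-- The range of a linear isometry from a Banach space is closed. -/
theorem closed_range [CompleteSpace X] {V : Type*} [NormedAddCommGroup V] [NormedSpace ℝ V]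
    (f : X →L[ℝ] V) (hf : ∀ x, ‖f x‖ = ‖x‖) : IsClosed (Set.range f) := by
  have : Isometry f := AddMonoidHomClass.isometry_of_norm f hf
  exact this.isClosedEmbedding.isClosed_range

theorem closed_range' [CompleteSpace X] {V : Type*} [NormedAddCommGroup V] [NormedSpace ℝ V]
    (f : X →L[ℝ] V) (hf : ∀ x, ‖f x‖ = ‖x‖) : ∃ R : Submodule ℝ V, IsClosed (R : Set V) ∧
      ∀ v, v ∈ R ↔ ∃ x, f x = v :=
  ⟨LinearMap.range (f : X →ₗ[ℝ] V), closed_range f hf, fun _ => Iff.rfl⟩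

/-- Separation of a point from a closed subspace. -/
theorem exists_sep {V : Type*} [NormedAddCommGroup V] [NormedSpace ℝ V]
    (R : Submodule ℝ V) (hRcl : IsClosed (R : Set V)) (Φ : V)
    (hΦnorm : ‖Φ‖ ≤ 1) (hΦR : Φ ∉ R) :
    ∃ F : V →L[ℝ] ℝ, ‖F‖ ≤ 1 ∧ (∀ x ∈ R, F x = 0) ∧ 0 < F Φ ∧ F Φ ≤ 1 := by
  obtain ⟨F₀, c₀, hF1, hF2⟩ := geometric_hahn_banach_closed_point R.convex hRcl hΦR
  have hF0 : ∀ x ∈ R, F₀ x = 0 := by
    intro x hx
    by_contra hne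
    have hmem : ∀ t : ℝ, F₀ (t • x) < c₀ := fun t => hF1 _ (R.smul_mem t hx)
    have := hmem (c₀ / F₀ x)
    rw [map_smul, smul_eq_mul, div_mul_cancel₀ _ hne] at this
    exact lt_irrefl _ this
  have hc0 : 0 < c₀ := by
    have := hF1 0 R.zero_mem
    rwa [map_zero] at this
  have hF0Φ : 0 < F₀ Φ := hc0.trans hF2
  have hF0n : 0 < ‖F₀‖ := by
    rw [norm_pos_iff]
    rintro rfl
    simp at hF0Φ
  set F : V →L[ℝ] ℝ := ‖F₀‖⁻¹ • F₀ with hF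
  have hFnorm : ‖F‖ ≤ 1 := by
    rw [hF, norm_smul, norm_inv, norm_norm, inv_mul_cancel₀ hF0n.ne']
  refine ⟨F, hFnorm, ?_, ?_, ?_⟩
  · intro x hx
    have : F x = ‖F₀‖⁻¹ * F₀ x := rfl
    rw [this, hF0 x hx, mul_zero]
  · have : F Φ = ‖F₀‖⁻¹ * F₀ Φ := rfl
    rw [this]
    positivity
  · calc F Φ ≤ ‖F Φ‖ := le_abs_self _
      _ ≤ ‖F‖ * ‖Φ‖ := F.le_opNorm Φ
      _ ≤ 1 * 1 := by gcongr
      _ = 1 := mul_one _

/-- Separation of a point of the dual from a closed subspace of the dual, by a bounded net. -/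
theorem exists_filter {E : Type*} [NormedAddCommGroup E] [NormedSpace ℝ E]
    (R : Submodule ℝ (E →L[ℝ] ℝ)) (hRcl : IsClosed (R : Set (E →L[ℝ] ℝ))) (Φ : E →L[ℝ] ℝ)
    (hΦnorm : ‖Φ‖ ≤ 1) (hΦR : Φ ∉ R) :
    ∃ (η : ℝ) (𝓕 : Filter E), 0 < η ∧ η ≤ 1 ∧ 𝓕.NeBot ∧ (∀ᶠ x in 𝓕, ‖x‖ ≤ 1) ∧
      (∀ ρ ∈ R, Tendsto (fun x => ρ x) 𝓕 (𝓝 0)) ∧ Tendsto (fun x => Φ x) 𝓕 (𝓝 η) := by
  obtain ⟨F, hFnorm, hFR, hη0, hη1⟩ := exists_sep R hRcl Φ hΦnorm hΦR
  obtain ⟨𝓕, h𝓕, h𝓕1, h𝓕2⟩ := goldstine F hFnorm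
  refine ⟨F Φ, 𝓕, hη0, hη1, h𝓕, h𝓕1, fun ρ hρ => ?_, h𝓕2 Φ⟩
  have := h𝓕2 ρ
  rwa [hFR ρ hρ] at this

/-- Consequence of the Bishop–Phelps theorem. -/
theorem exists_attaining {E : Type*} [NormedAddCommGroup E] [NormedSpace ℝ E] [CompleteSpace E]
    (R : Submodule ℝ (E →L[ℝ] ℝ)) (hRcl : IsClosed (R : Set (E →L[ℝ] ℝ)))
    (hR : ∃ Φ, Φ ∉ R) :
    ∃ (Φ : E →L[ℝ] ℝ) (g : E), ‖Φ‖ ≤ 1 ∧ Φ ∉ R ∧ ‖g‖ ≤ 1 ∧ Φ g = 1 := by
  obtain ⟨Φ₀, hΦ₀⟩ := hR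
  obtain ⟨r, hr, hball⟩ := Metric.isOpen_iff.mp hRcl.isOpen_compl Φ₀ hΦ₀
  -- Bishop–Phelps
  obtain ⟨Ψ, ⟨g, hg1, hg2⟩, hΨ⟩ := bishop_phelps Φ₀ (half_pos hr)
  have hΨR : Ψ ∉ R := by
    have : Ψ ∈ Metric.ball Φ₀ r := by
      rw [mem_ball_iff_norm', ← dist_eq_norm]
      rw [← dist_eq_norm] at hΨ
      linarith
    exact hball this
  have hΨ0 : 0 < ‖Ψ‖ := by
    rw [norm_pos_iff]
    rintro rfl
    exact hΨR R.zero_mem
  refine ⟨‖Ψ‖⁻¹ • Ψ, g, ?_, ?_, hg1, ?_⟩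
  · rw [norm_smul, norm_inv, norm_norm, inv_mul_cancel₀ hΨ0.ne']
  · intro h
    apply hΨR
    have : Ψ = ‖Ψ‖ • (‖Ψ‖⁻¹ • Ψ) := by
      rw [smul_smul, mul_inv_cancel₀ hΨ0.ne', one_smul]
    rw [this]
    exact R.smul_mem _ h
  · have : (‖Ψ‖⁻¹ • Ψ) g = ‖Ψ‖⁻¹ * Ψ g := rfl
    rw [this, hg2, inv_mul_cancel₀ hΨ0.ne']

theorem norm_incl (x : X) : ‖NormedSpace.inclusionInDoubleDual ℝ X x‖ = ‖x‖ :=
  (NormedSpace.inclusionInDoubleDualLi (E := X) ℝ).norm_map x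

/-- Ultrafilter limits of bounded sequences in a dual space. -/
theorem exists_limit_aux {E : Type*} [NormedAddCommGroup E] [NormedSpace ℝ E]
    (y : ℕ → StrongDual ℝ E) (hy : ∀ n, ‖y n‖ ≤ 1) :
    ∃ w : StrongDual ℝ E, ‖w‖ ≤ 1 ∧
      ∀ f : E, Tendsto (fun n => y n f) (hyperfilter ℕ) (𝓝 (w f)) := by
  let z : ℕ → WeakDual ℝ E := fun n => StrongDual.toWeakDual (y n)
  have hcomp := WeakDual.isCompact_closedBall (𝕜 := ℝ) (E := E) 0 1
  have hmem : ∀ n, z n ∈ WeakDual.toStrongDual ⁻¹' (Metric.closedBall (0 : StrongDual ℝ E) 1) := by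
    intro n
    change y n ∈ Metric.closedBall _ _
    rw [mem_closedBall_zero_iff]
    exact hy n
  obtain ⟨w, hw1, hw2⟩ := hcomp.ultrafilter_le_nhds ((hyperfilter ℕ).map z) (by
    rw [le_principal_iff]
    exact Filter.mem_map.mpr (Filter.univ_mem' hmem))
  refine ⟨WeakDual.toStrongDual w, by simpa [mem_closedBall_zero_iff] using hw1, fun f => ?_⟩
  have h1 : Tendsto z (hyperfilter ℕ) (𝓝 w) := hw2
  exact ((WeakDual.eval_continuous f).tendsto w).comp h1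

/-- Ultrafilter limits of bounded sequences in the bidual. -/
theorem exists_limit (y : ℕ → X) (hy : ∀ n, ‖y n‖ ≤ 1) :
    ∃ w : StrongDual ℝ (StrongDual ℝ X), ‖w‖ ≤ 1 ∧
      ∀ f : StrongDual ℝ X, Tendsto (fun n => f (y n)) (hyperfilter ℕ) (𝓝 (w f)) := by
  obtain ⟨w, hw1, hw2⟩ := exists_limit_aux (fun n => NormedSpace.inclusionInDoubleDual ℝ X (y n))
    (fun n => (norm_incl (y n)).trans_le (hy n))
  exact ⟨w, hw1, hw2⟩

theorem main_aux [CompleteSpace X]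
    (hX : ¬ Function.Surjective (NormedSpace.inclusionInDoubleDual ℝ X))
    (S : Submodule ℝ (StrongDual ℝ (StrongDual ℝ X)))
    (hS : ∀ φ : StrongDual ℝ (StrongDual ℝ X), φ ∈ S ↔
      ∃ f : StrongDual ℝ X, ‖f‖ ≤ 1 ∧ φ f = ‖φ‖) : False := by
  classical
  obtain ⟨R, hRcl, hR⟩ := closed_range' (V := StrongDual ℝ (StrongDual ℝ X))
    (NormedSpace.inclusionInDoubleDual ℝ X) norm_incl
  obtain ⟨Φ, g, hΦnorm, hΦR, hg1, hΦg⟩ := exists_attaining (E := StrongDual ℝ X) R hRcl (by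
    by_contra hcon
    push Not at hcon
    exact hX fun Φ => (hR Φ).mp (hcon Φ))
  obtain ⟨η, 𝓕, hη0, hη1, h𝓕, h𝓕1, h𝓕2, h𝓕3⟩ :=
    exists_filter (E := StrongDual ℝ X) R hRcl Φ hΦnorm hΦR
  -- the sequences
  let Pr : (StrongDual ℝ X) × X × ℕ → Prop := fun s =>
    ‖s.1‖ ≤ 1 ∧ ‖s.2.1‖ ≤ 1 ∧ 3 * η / 4 < Φ s.1 ∧ 3 * η / 4 < s.1 s.2.1 ∧
      1 - 1 / ((s.2.2 : ℝ) + 1) < g s.2.1
  let rel : (StrongDual ℝ X) × X × ℕ → (StrongDual ℝ X) × X × ℕ → Prop := fun s t =>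
    t.1 s.2.1 < η / 4 ∧ 3 * η / 4 < s.1 t.2.1 ∧ s.2.2 < t.2.2
  have hseq : ∀ s : Finset ((StrongDual ℝ X) × X × ℕ), (∀ a ∈ s, Pr a) →
      ∃ b, Pr b ∧ ∀ a ∈ s, rel a b := by
    intro s hs
    have e1 : ∀ᶠ f in 𝓕, ∀ a ∈ s, f a.2.1 < η / 4 := by
      rw [Filter.eventually_all_finset]
      intro a _
      have : Tendsto (fun f : StrongDual ℝ X => f a.2.1) 𝓕 (𝓝 0) :=
        h𝓕2 (NormedSpace.inclusionInDoubleDual ℝ X a.2.1) ((hR _).mpr ⟨a.2.1, rfl⟩)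
      exact this.eventually_lt_const (by positivity)
    have e2 : ∀ᶠ f in 𝓕, 3 * η / 4 < Φ f :=
      h𝓕3.eventually_const_lt (by linarith)
    obtain ⟨f, hf1, hf2, hf3⟩ := (h𝓕1.and (e1.and e2)).exists
    obtain ⟨𝓖, h𝓖, h𝓖1, h𝓖2⟩ := goldstine (E := X) Φ hΦnorm
    let M : ℕ := s.sup (fun a => a.2.2) + 1
    have e3 : ∀ᶠ x in 𝓖, ∀ a ∈ s, 3 * η / 4 < a.1 x := by
      rw [Filter.eventually_all_finset]
      intro a ha
      exact (h𝓖2 a.1).eventually_const_lt (hs a ha).2.2.1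
    have e4 : ∀ᶠ x in 𝓖, 3 * η / 4 < f x := (h𝓖2 f).eventually_const_lt hf3
    have e5 : ∀ᶠ x in 𝓖, 1 - 1 / ((M : ℝ) + 1) < g x := by
      apply (h𝓖2 g).eventually_const_lt
      rw [hΦg]
      have : (0 : ℝ) < 1 / ((M : ℝ) + 1) := by positivity
      linarith
    obtain ⟨x, hx1, hx2, hx3, hx4⟩ := (h𝓖1.and (e3.and (e4.and e5))).exists
    refine ⟨(f, x, M), ⟨hf1, hx1, hf3, hx3, hx4⟩, fun a ha => ⟨hf2 a ha, hx2 a ha, ?_⟩⟩
    have : a.2.2 ≤ s.sup (fun a => a.2.2) := Finset.le_sup (f := fun a => a.2.2) ha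
    exact Nat.lt_succ_of_le this
  obtain ⟨s, hsP, hsr⟩ := exists_seq_of_forall_finset_exists Pr rel hseq
  have hmn : ∀ n, n ≤ (s n).2.2 := by
    have : StrictMono fun n => (s n).2.2 := fun m n hmn => (hsr m n hmn).2.2
    exact fun n => this.le_apply
  -- the family of convex sets
  let F₁ : Fam X :=
    { K := fun n => convexHull ℝ ((fun k => (s k).2.1) '' Ici n)
      conv := fun n => convex_convexHull ℝ _
      ne := fun n => ⟨_, subset_convexHull ℝ _ ⟨n, self_mem_Ici, rfl⟩⟩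
      anti := fun n => convexHull_mono (image_mono (Ici_subset_Ici.mpr n.le_succ))
      ball := by
        intro n x hx
        have : convexHull ℝ ((fun k => (s k).2.1) '' Ici n) ⊆ Metric.closedBall 0 1 := by
          apply convexHull_min _ (convex_closedBall _ _)
          rintro _ ⟨k, _, rfl⟩
          rw [mem_closedBall_zero_iff]
          exact (hsP k).2.1
        simpa using this hx }
  have hK : ∀ n, F₁.K n = convexHull ℝ ((fun k => (s k).2.1) '' Ici n) := fun n => rfl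
  have hgK : ∀ n, ∀ x ∈ F₁.K n, 1 - 1 / ((n : ℝ) + 1) ≤ g x := by
    intro n x hx
    have : F₁.K n ⊆ {x | 1 - 1 / ((n : ℝ) + 1) ≤ (g : X →ₗ[ℝ] ℝ) x} := by
      rw [hK]
      apply convexHull_min _ (convex_halfSpace_ge (g : X →ₗ[ℝ] ℝ).isLinear _)
      rintro _ ⟨k, hk, rfl⟩
      have h1 := (hsP k).2.2.2.2
      have h2 : (n : ℝ) ≤ ((s k).2.2 : ℝ) := by
        exact_mod_cast (show n ≤ k from hk).trans (hmn k)
      have h3 : 1 / (((s k).2.2 : ℝ) + 1) ≤ 1 / ((n : ℝ) + 1) := by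
        apply one_div_le_one_div_of_le (by positivity)
        linarith
      change 1 - 1 / ((n : ℝ) + 1) ≤ g (s k).2.1
      linarith
    exact this hx
  have hfK : ∀ n, ∀ x ∈ F₁.K n, 3 * η / 4 ≤ (s n).1 x := by
    intro n x hx
    have : F₁.K n ⊆ {x | 3 * η / 4 ≤ ((s n).1 : X →ₗ[ℝ] ℝ) x} := by
      rw [hK]
      apply convexHull_min _ (convex_halfSpace_ge ((s n).1 : X →ₗ[ℝ] ℝ).isLinear _)
      rintro _ ⟨k, hk, rfl⟩
      change 3 * η / 4 ≤ (s n).1 (s k).2.1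
      rcases (show n ≤ k from hk).eq_or_lt with h | h
      · subst h
        exact (hsP n).2.2.2.1.le
      · exact (hsr n k h).2.1.le
    exact this hx
  have hyK : ∀ y ∈ F₁.K 0, ∃ N, ∀ n ≥ N, (s n).1 y ≤ η / 4 := by
    have : F₁.K 0 ⊆ {y | ∃ N, ∀ n ≥ N, (s n).1 y ≤ η / 4} := by
      rw [hK]
      apply convexHull_min
      · rintro _ ⟨k, _, rfl⟩
        refine ⟨k + 1, fun n hn => ?_⟩
        exact (hsr k n hn).1.le
      · rintro a ⟨N, hN⟩ b ⟨M, hM⟩ t t' ht ht' htt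
        refine ⟨max N M, fun n hn => ?_⟩
        have h1 := hN n (le_trans (le_max_left _ _) hn)
        have h2 := hM n (le_trans (le_max_right _ _) hn)
        rw [map_add, map_smul, map_smul, smul_eq_mul, smul_eq_mul]
        calc t * (s n).1 a + t' * (s n).1 b ≤ t * (η / 4) + t' * (η / 4) := by gcongr
          _ = η / 4 := by rw [← add_mul, htt, one_mul]
    exact this
  have hbase : ∀ y ∈ F₁.K 0, ∀ F' : Fam X, Ext F' F₁ → ∀ c, Q y F' c → η / 2 ≤ c := by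
    intro y hy F' hF' c hQ
    obtain ⟨N, hN⟩ := hyK y hy
    apply le_of_forall_pos_le_add
    intro ε hε
    obtain ⟨m, hm⟩ := hQ (s N).1 (hsP N).1 ε hε
    obtain ⟨x, hx⟩ := F'.ne (max m N)
    have h1 := hm x (F'.mono (le_max_left _ _) hx)
    have h2 : x ∈ F₁.K N := F₁.mono ((le_max_right m N).trans (Nat.le_succ _)) (hF' _ hx)
    have h3 := hfK N x h2
    have h4 := hN N le_rfl
    rw [map_sub] at h1
    linarith
  obtain ⟨y, u, hy, hmain⟩ := james_block F₁ (half_pos hη0) (by linarith) hbase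
  obtain ⟨w, hw1, hw2⟩ := exists_limit y fun n => F₁.ball n _ (hy n)
  apply hmain w hw1 hw2
  -- `w ∈ S` and `ι u ∈ S`, where `ι` is the inclusion
  have hgle : ∀ n, g (y n) ≤ 1 := fun n => by
    calc g (y n) ≤ ‖g (y n)‖ := le_abs_self _
      _ ≤ ‖g‖ * ‖y n‖ := g.le_opNorm _
      _ ≤ 1 * 1 := by
          gcongr
          exact F₁.ball n _ (hy n)
      _ = 1 := mul_one _
  have hwg : w g = 1 := by
    have h1 : Tendsto (fun n => g (y n)) atTop (𝓝 1) := by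
      have h2 : Tendsto (fun n : ℕ => 1 - 1 / ((n : ℝ) + 1)) atTop (𝓝 (1 - 0)) :=
        tendsto_one_div_add_atTop_nhds_zero_nat.const_sub 1
      rw [sub_zero] at h2
      exact tendsto_of_tendsto_of_tendsto_of_le_of_le h2 tendsto_const_nhds
        (fun n => hgK n _ (hy n)) hgle
    exact tendsto_nhds_unique (hw2 g) (h1.mono_left Nat.hyperfilter_le_atTop)
  have hwS : w ∈ S := by
    rw [hS]
    refine ⟨g, hg1, ?_⟩
    rw [hwg]
    apply le_antisymm _ hw1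
    calc (1 : ℝ) = w g := hwg.symm
      _ ≤ ‖w g‖ := le_abs_self _
      _ ≤ ‖w‖ * ‖g‖ := w.le_opNorm g
      _ ≤ ‖w‖ * 1 := by gcongr
      _ = ‖w‖ := mul_one _
  have huS : NormedSpace.inclusionInDoubleDual ℝ X u ∈ S := by
    rw [hS]
    obtain ⟨f, hf1, hf2⟩ := exists_dual_vector'' ℝ u
    refine ⟨f, hf1, ?_⟩
    exact hf2.trans (norm_incl u).symm
  have hsub : NormedSpace.inclusionInDoubleDual ℝ X u - w ∈ S := by
    have h1 := S.add_mem huS (S.smul_mem (-1 : ℝ) hwS)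
    have h2 : NormedSpace.inclusionInDoubleDual ℝ X u - w =
        NormedSpace.inclusionInDoubleDual ℝ X u + (-1 : ℝ) • w := by
      refine ContinuousLinearMap.ext fun f => ?_
      change f u - w f = f u + (-1 : ℝ) * w f
      ring
    rw [h2]
    exact h1
  exact (hS _).mp hsub

end Pool.Agent.Lib.MP_6b3dca_an
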